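import Pool.Agent.H518R3.RD.Defs

/-!
ROOM GEN, block 5, task COM: a sequence of commuting self-adjoint contractions is generated by one
self-adjoint operator.
-/

set_option autoImplicit false

open scoped ComplexOrder InnerProductSpace Topology
open Filter

noncomputable section

namespace Pool.Agent.H518R3.RD.T_COM

open H759R2.Kad H710R2.DP H917R2.Tr Pool.Agent.H735G Pool.Agent.H467F Pool.Agent.H518R3.RD

variable {H : Type} [NormedAddCommGroup H] [InnerProductSpace ℂ H] [CompleteSpace H]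

theorem cc_mono {S T : Set (H →L[ℂ] H)} (h : S ⊆ T) : cc S ⊆ cc T :=
  Set.centralizer_subset (Set.centralizer_subset h)

theorem sub_cc (S : Set (H →L[ℂ] H)) : S ⊆ cc S := Set.subset_centralizer_centralizer

theorem cc_cc {S T : Set (H →L[ℂ] H)} (h : S ⊆ cc T) : cc S ⊆ cc T := by
  intro x hx s hs
  exact hx s (fun m hm => (h hm s hs).symm)

/-- commuting with a set of commuting generators -/
theorem comm_cc {x : H →L[ℂ] H} {p s : H →L[ℂ] H} (hp : p ∈ cc {x}) (hs : s * x = x * s) :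
    s * p = p * s := by
  refine hp s ?_
  intro m hm
  rw [Set.mem_singleton_iff.1 hm]
  exact hs.symm

theorem pos_half {y : H →L[ℂ] H} (hs : star y = y) (hn : ‖y‖ ≤ 1) : 0 ≤ (1 / 2 : ℂ) • (1 + y) := by
  have h1 : -(1 : H →L[ℂ] H) ≤ y := by
    have h2 : -algebraMap ℝ (H →L[ℂ] H) ‖y‖ ≤ y :=
      IsSelfAdjoint.neg_algebraMap_norm_le_self (a := y) hs
    have h3 : algebraMap ℝ (H →L[ℂ] H) ‖y‖ ≤ algebraMap ℝ (H →L[ℂ] H) 1 :=
      algebraMap_mono _ hn
    rw [map_one] at h3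
    exact (neg_le_neg h3).trans h2
  have h4 : 0 ≤ 1 + y := by
    have := add_le_add_left h1 (1 : H →L[ℂ] H)
    simpa using neg_le_iff_add_nonneg'.1 h1
  have h5 : (0 : ℂ) ≤ 1 / 2 := by
    have : ((1 / 2 : ℝ) : ℂ) = 1 / 2 := by norm_num
    rw [← this]
    exact_mod_cast (by norm_num : (0 : ℝ) ≤ 1 / 2)
  have h6 : (1 / 2 : ℂ) • (1 + y) = (1 / 2 : ℝ) • (1 + y) := by
    rw [← Complex.coe_smul]
    norm_num
  rw [h6]
  exact smul_nonneg (by norm_num) h4

theorem r_COM (hP : R_PRJ) (hB : R_BIN) : R_COM := by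
  intro H _ _ _ y hy hcomm
  let x : ℕ → (H →L[ℂ] H) := fun k => (1 / 2 : ℂ) • (1 + y k)
  have hx0 : ∀ k, 0 ≤ x k := fun k => pos_half (hy k).1 (hy k).2
  have hx1 : ∀ k, ‖x k‖ ≤ 1 := by
    intro k
    have h1 : ‖(1 : H →L[ℂ] H)‖ ≤ 1 := ContinuousLinearMap.norm_id_le
    have h2 : ‖(1 : H →L[ℂ] H) + y k‖ ≤ 2 := (norm_add_le _ _).trans (by linarith [(hy k).2])
    show ‖(1 / 2 : ℂ) • (1 + y k)‖ ≤ 1
    rw [norm_smul]
    have e : ‖(1 / 2 : ℂ)‖ = 1 / 2 := by norm_num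
    rw [e]
    linarith
  have hxc : ∀ j k, x j * x k = x k * x j := by
    intro j k
    show ((1 / 2 : ℂ) • (1 + y j)) * ((1 / 2 : ℂ) • (1 + y k)) =
      ((1 / 2 : ℂ) • (1 + y k)) * ((1 / 2 : ℂ) • (1 + y j))
    have e : (1 + y j) * (1 + y k) = (1 + y k) * (1 + y j) := by
      simp only [mul_add, add_mul, one_mul, mul_one, hcomm j k]
      abel
    rw [smul_mul_assoc, mul_smul_comm, e, smul_mul_assoc, mul_smul_comm]
  choose p hp1 hp2 using fun k => hB H (x k) (hx0 k) (hx1 k)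
  have hpc : ∀ j m k n, p j m * p k n = p k n * p j m := by
    intro j m k n
    -- `x j` commutes with `p k n`
    have h1 : x j * p k n = p k n * x j := comm_cc (hp1 k n).2 (hxc j k)
    exact (comm_cc (hp1 j m).2 h1.symm).symm
  let P : ℕ → (H →L[ℂ] H) := fun N => p (Nat.unpair N).1 (Nat.unpair N).2
  obtain ⟨h, h1, h2, h3, h4⟩ := hP H P (fun N => (hp1 _ _).1) (fun M N => hpc _ _ _ _)
  have hxy : ∀ k, x k ∈ cc (Set.range y) := by
    intro k s hs
    have h5 : y k * s = s * y k := hs (y k) ⟨k, rfl⟩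
    show s * ((1 / 2 : ℂ) • (1 + y k)) = ((1 / 2 : ℂ) • (1 + y k)) * s
    rw [mul_smul_comm, smul_mul_assoc, mul_add, add_mul, one_mul, mul_one, h5]
  refine ⟨h, h1, h2, ?_, ?_⟩
  · refine cc_cc (T := Set.range y) ?_ h3
    rintro q ⟨N, rfl⟩
    refine cc_cc (S := {x (Nat.unpair N).1}) ?_ (hp1 (Nat.unpair N).1 (Nat.unpair N).2).2
    intro q hq
    rw [Set.mem_singleton_iff.1 hq]
    exact hxy _
  · intro k
    have h5 : x k ∈ cc {h} := by
      refine cc_cc (S := Set.range (p k)) ?_ (hp2 k)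
      rintro q ⟨n, rfl⟩
      have h6 := h4 (Nat.pair k n)
      simpa only [P, Nat.unpair_pair] using h6
    intro s hs
    have h7 : s * x k = x k * s := h5 s hs
    have h8 : y k = (2 : ℂ) • x k - 1 := by
      show y k = (2 : ℂ) • ((1 / 2 : ℂ) • (1 + y k)) - 1
      rw [smul_smul]
      norm_num
    rw [h8, mul_sub, sub_mul, mul_smul_comm, smul_mul_assoc, h7, mul_one, one_mul]

end Pool.Agent.H518R3.RD.T_COM
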