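import Pool.Agent.H518R3.RD.Defs

/-!
ROOM GEN, block 5, task PRJ: a sequence of commuting projections is generated by one
self-adjoint operator.
-/

set_option autoImplicit false

open scoped ComplexOrder InnerProductSpace Topology
open Filter

noncomputable section

namespace Pool.Agent.H518R3.RD.T_PRJ

open H759R2.Kad H710R2.DP H917R2.Tr Pool.Agent.H735G Pool.Agent.H467F Pool.Agent.H518R3.RD

variable {H : Type} [NormedAddCommGroup H] [InnerProductSpace ℂ H] [CompleteSpace H]

theorem norm_pr {p : H →L[ℂ] H} (hs : star p = p) (hp : p * p = p) : ‖p‖ ≤ 1 := by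
  have h : ‖star p * p‖ = ‖p‖ * ‖p‖ := CStarRing.norm_star_mul_self
  rw [hs, hp] at h
  by_contra hc
  push Not at hc
  nlinarith

/-- the weights -/
def cf (i : ℕ) : ℂ := (1 / 4 : ℂ) ^ i

/-- the tails -/
def R (p : ℕ → (H →L[ℂ] H)) (n : ℕ) : H →L[ℂ] H := ∑' i, cf i • p (n + i)

theorem norm_term {p : ℕ → (H →L[ℂ] H)} (hp : ∀ n, ‖p n‖ ≤ 1) (n i : ℕ) :
    ‖cf i • p (n + i)‖ ≤ (1 / 4 : ℝ) ^ i := by
  rw [norm_smul]
  have h : ‖cf i‖ = (1 / 4 : ℝ) ^ i := by
    unfold cf
    rw [norm_pow]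
    congr 1
    norm_num
  rw [h]
  exact mul_le_of_le_one_right (by positivity) (hp _)

theorem geo : HasSum (fun i : ℕ => (1 / 4 : ℝ) ^ i) (4 / 3) := by
  have h := hasSum_geometric_of_lt_one (r := (1 / 4 : ℝ)) (by norm_num) (by norm_num)
  have e : (1 - (1 / 4 : ℝ))⁻¹ = 4 / 3 := by norm_num
  rwa [e] at h

theorem summ {p : ℕ → (H →L[ℂ] H)} (hp : ∀ n, ‖p n‖ ≤ 1) (n : ℕ) :
    Summable fun i => cf i • p (n + i) :=
  Summable.of_norm_bounded geo.summable (norm_term hp n)

theorem norm_R {p : ℕ → (H →L[ℂ] H)} (hp : ∀ n, ‖p n‖ ≤ 1) (n : ℕ) : ‖R p n‖ ≤ 4 / 3 :=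
  tsum_of_norm_bounded geo (norm_term hp n)

theorem R_succ {p : ℕ → (H →L[ℂ] H)} (hp : ∀ n, ‖p n‖ ≤ 1) (n : ℕ) :
    R p n = p n + (1 / 4 : ℂ) • R p (n + 1) := by
  unfold R
  rw [(summ hp n).tsum_eq_zero_add]
  congr 1
  · simp [cf]
  · rw [← (summ hp (n + 1)).tsum_const_smul]
    refine tsum_congr fun i => ?_
    rw [smul_smul]
    have e1 : n + (i + 1) = n + 1 + i := by ring
    rw [e1]
    congr 1
    unfold cf
    ring

theorem comm_tsum {p : ℕ → (H →L[ℂ] H)} (hp : ∀ n, ‖p n‖ ≤ 1) (n : ℕ) (s : H →L[ℂ] H)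
    (h : ∀ i, s * p i = p i * s) : s * R p n = R p n * s := by
  unfold R
  rw [← (summ hp n).tsum_mul_left, ← (summ hp n).tsum_mul_right]
  refine tsum_congr fun i => ?_
  rw [mul_smul_comm, smul_mul_assoc, h]

theorem star_R {p : ℕ → (H →L[ℂ] H)} (hs : ∀ n, star (p n) = p n) (n : ℕ) :
    star (R p n) = R p n := by
  unfold R
  rw [tsum_star]
  refine tsum_congr fun i => ?_
  rw [star_smul, hs]
  congr 1
  unfold cf
  rw [star_pow]
  congr 1
  have e : (1 / 4 : ℂ) = ((1 / 4 : ℝ) : ℂ) := by push_cast; norm_num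
  rw [Complex.star_def, e, Complex.conj_ofReal]

/-- one step -/
theorem step {p R' s : H →L[ℂ] H} (hpp : p * p = p) (hR : R' * p = p * R') (hn : ‖R'‖ ≤ 1 / 3)
    (hs : s * (p + R') = (p + R') * s) : s * p = p * (s * p) := by
  obtain ⟨x, hx⟩ : ∃ x, x = (1 - p) * s * p := ⟨_, rfl⟩
  have e1 : (1 - p) * (s * (p + R')) * p = x + x * R' := by
    have h1 : (p + R') * p = p + p * R' := by rw [add_mul, hpp, hR]
    calc (1 - p) * (s * (p + R')) * p = (1 - p) * s * ((p + R') * p) := by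
          simp only [mul_assoc]
      _ = (1 - p) * s * (p + p * R') := by rw [h1]
      _ = x + x * R' := by rw [hx, mul_add, mul_assoc ((1 - p) * s) p R']
  have e2 : (1 - p) * ((p + R') * s) * p = R' * x := by
    have h1 : (1 - p) * (p + R') = R' * (1 - p) := by
      rw [sub_mul, one_mul, mul_add, hpp, mul_sub, mul_one, hR]
      abel
    calc (1 - p) * ((p + R') * s) * p = ((1 - p) * (p + R')) * s * p := by
          simp only [mul_assoc]
      _ = R' * (1 - p) * s * p := by rw [h1]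
      _ = R' * x := by rw [hx]; simp only [mul_assoc]
  rw [hs, e2] at e1
  have e3 : x = R' * x - x * R' := by rw [e1]; abel
  have h2 : ‖x‖ ≤ 2 / 3 * ‖x‖ := by
    calc ‖x‖ = ‖R' * x - x * R'‖ := by rw [← e3]
      _ ≤ ‖R' * x‖ + ‖x * R'‖ := norm_sub_le _ _
      _ ≤ ‖R'‖ * ‖x‖ + ‖x‖ * ‖R'‖ := add_le_add (norm_mul_le _ _) (norm_mul_le _ _)
      _ ≤ 1 / 3 * ‖x‖ + ‖x‖ * (1 / 3) :=
          add_le_add (mul_le_mul_of_nonneg_right hn (norm_nonneg _))
            (mul_le_mul_of_nonneg_left hn (norm_nonneg _))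
      _ = 2 / 3 * ‖x‖ := by ring
  have h3 : ‖x‖ = 0 := by
    have := norm_nonneg x
    linarith
  have h4 : x = 0 := norm_eq_zero.1 h3
  rw [h4] at hx
  have h5 : s * p - p * (s * p) = 0 := by
    rw [hx, sub_mul, sub_mul, one_mul, mul_assoc]
  exact sub_eq_zero.1 h5

theorem r_PRJ : R_PRJ := by
  intro H _ _ _ p hpr hcomm
  have hs : ∀ n, star (p n) = p n := fun n => (hpr n).1
  have hpp : ∀ n, p n * p n = p n := fun n => (hpr n).2
  have hn : ∀ n, ‖p n‖ ≤ 1 := fun n => norm_pr (hs n) (hpp n)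
  have hRs := star_R hs 0
  -- an operator commuting with `R 0` commutes with all tails and all projections
  have key : ∀ n : ℕ, ∀ s : H →L[ℂ] H, s * R p 0 = R p 0 * s →
      s * R p n = R p n * s ∧ s * p n = p n * s := by
    intro n
    induction n with
    | zero =>
      intro s h0
      refine ⟨h0, ?_⟩
      have hR' : ‖(1 / 4 : ℂ) • R p (0 + 1)‖ ≤ 1 / 3 := by
        rw [norm_smul]
        have := norm_R hn (0 + 1)
        have e : ‖(1 / 4 : ℂ)‖ = 1 / 4 := by norm_num
        rw [e]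
        linarith
      have hc : ((1 / 4 : ℂ) • R p (0 + 1)) * p 0 = p 0 * ((1 / 4 : ℂ) • R p (0 + 1)) := by
        rw [smul_mul_assoc, mul_smul_comm, comm_tsum hn (0 + 1) (p 0) (fun i => hcomm 0 i)]
      have half : ∀ t : H →L[ℂ] H, t * R p 0 = R p 0 * t → t * p 0 = p 0 * (t * p 0) := by
        intro t ht
        refine step (hpp 0) hc hR' ?_
        rw [← R_succ hn 0]
        exact ht
      have a1 := half s h0
      have a2 := half (star s) (by
        have := congrArg star h0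
        rw [star_mul, star_mul, hRs] at this
        exact this.symm)
      have a3 := congrArg star a2
      rw [star_mul, star_mul, star_mul, star_star, hs] at a3
      rw [a1, a3, mul_assoc]
    | succ n ih =>
      have hcomm1 : ∀ s : H →L[ℂ] H, s * R p 0 = R p 0 * s → s * R p (n + 1) = R p (n + 1) * s := by
        intro s h0
        obtain ⟨b1, b2⟩ := ih s h0
        rw [R_succ hn n, mul_add, add_mul, b2] at b1
        have b3 := add_left_cancel b1
        rw [mul_smul_comm, smul_mul_assoc] at b3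
        exact smul_right_injective _ (by norm_num : (1 / 4 : ℂ) ≠ 0) b3
      intro s h0
      refine ⟨hcomm1 s h0, ?_⟩
      have hR' : ‖(1 / 4 : ℂ) • R p (n + 1 + 1)‖ ≤ 1 / 3 := by
        rw [norm_smul]
        have := norm_R hn (n + 1 + 1)
        have e : ‖(1 / 4 : ℂ)‖ = 1 / 4 := by norm_num
        rw [e]
        linarith
      have hc : ((1 / 4 : ℂ) • R p (n + 1 + 1)) * p (n + 1) =
          p (n + 1) * ((1 / 4 : ℂ) • R p (n + 1 + 1)) := by
        rw [smul_mul_assoc, mul_smul_comm,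
          comm_tsum hn (n + 1 + 1) (p (n + 1)) (fun i => hcomm (n + 1) i)]
      have half : ∀ t : H →L[ℂ] H, t * R p 0 = R p 0 * t →
          t * p (n + 1) = p (n + 1) * (t * p (n + 1)) := by
        intro t ht
        refine step (hpp (n + 1)) hc hR' ?_
        rw [← R_succ hn (n + 1)]
        exact hcomm1 t ht
      have a1 := half s h0
      have a2 := half (star s) (by
        have := congrArg star h0
        rw [star_mul, star_mul, hRs] at this
        exact this.symm)
      have a3 := congrArg star a2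
      rw [star_mul, star_mul, star_mul, star_star, hs] at a3
      rw [a1, a3, mul_assoc]
  refine ⟨(1 / 2 : ℂ) • R p 0, ?_, ?_, ?_, ?_⟩
  · rw [star_smul, hRs]
    congr 1
    have e : (1 / 2 : ℂ) = ((1 / 2 : ℝ) : ℂ) := by push_cast; norm_num
    rw [Complex.star_def, e, Complex.conj_ofReal]
  · rw [norm_smul]
    have := norm_R hn 0
    have e : ‖(1 / 2 : ℂ)‖ = 1 / 2 := by norm_num
    rw [e]
    linarith
  · intro s hsc
    have h1 : ∀ i, s * p i = p i * s := fun i => (hsc (p i) ⟨i, rfl⟩).symm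
    rw [mul_smul_comm, smul_mul_assoc, comm_tsum hn 0 s h1]
  · intro n s hsc
    have h1 : (1 / 2 : ℂ) • R p 0 * s = s * ((1 / 2 : ℂ) • R p 0) := hsc _ rfl
    rw [mul_smul_comm, smul_mul_assoc] at h1
    have h2 := smul_right_injective _ (by norm_num : (1 / 2 : ℂ) ≠ 0) h1
    exact (key n s h2.symm).2

end Pool.Agent.H518R3.RD.T_PRJ
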